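import Pool.Agent.H57.AR.Targets

/-!
# All reducts, all arities: intersection of kernels
-/

set_option autoImplicit false

namespace Pool.Agent.H57.AR

open Pool.Agent.H68.BP Pool.Agent.H58.SF Pool.Agent.H53.GC Pool.Agent.H53.NR Pool.Agent.H53.GR
open Pool.Agent.H57.SO (Pal Col vt Exa Sb FBl Sbn Bh fib sigF)
open Pool.Agent.H57.EQ (Cx)
open Function

/-- intersection of kernels -/
theorem pf_BHIR : T_BHIR := by
  intro σ V S X P 𝔸 c hu I τ κ κ' h1 h2 W _ G
  obtain ⟨τ₂, κ₂, hu1, hu2, hu3⟩ := hu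
  obtain ⟨ψ, hψ, hψt, hψk⟩ := h1 W G
  obtain ⟨ψ', hψ', hψt', hψk'⟩ := h2 W G
  obtain ⟨φ, hφ, hφt, hφk⟩ := hu1 W ![ψ, ψ']
  have ht : ∀ w, (fun i => vt P c ((![ψ, ψ'] : Fin 2 → W → V) i w)) =
      fun _ => τ (fun i => vt P c (G i w)) := by
    intro w
    funext i
    fin_cases i
    · exact hψt w
    · exact hψt' w
  refine ⟨φ, fun l z hz => hφ l z ?_, fun w => ?_, fun u w => ?_⟩
  · intro i
    fin_cases i
    · exact hψ l z hz
    · exact hψ' l z hz
  · rw [hφt, ht, hu2]
  · rw [hφk, ht, ht]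
    constructor
    · intro h
      have h3 := hu3 _ _ _ h
      have h4 : ψ u = ψ w := by
        have : (0 : Fin 2) ∈ {i | (![ψ, ψ'] : Fin 2 → W → V) i u =
            (![ψ, ψ'] : Fin 2 → W → V) i w} := by
          rw [h3]
          exact Set.mem_univ _
        exact this
      have h5 : ψ' u = ψ' w := by
        have : (1 : Fin 2) ∈ {i | (![ψ, ψ'] : Fin 2 → W → V) i u =
            (![ψ, ψ'] : Fin 2 → W → V) i w} := by
          rw [h3]
          exact Set.mem_univ _
        exact this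
      exact ⟨(hψk u w).1 h4, (hψk' u w).1 h5⟩
    · rintro ⟨h3, h4⟩
      have h5 := (hψk u w).2 h3
      have h6 := (hψk' u w).2 h4
      have h7 : {i | (![ψ, ψ'] : Fin 2 → W → V) i u = (![ψ, ψ'] : Fin 2 → W → V) i w} =
          Set.univ := by
        ext i
        fin_cases i
        · simpa using h5
        · simpa using h6
      have h8 : τ (fun i => vt P c (G i u)) = τ (fun i => vt P c (G i w)) := by
        rw [← hψt, ← hψt, h5]
      have h9 := (hφk u u).1 rfl
      rw [ht] at h9
      rw [h7, ← h8]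
      have h10 : {i | (![ψ, ψ'] : Fin 2 → W → V) i u = (![ψ, ψ'] : Fin 2 → W → V) i u} =
          Set.univ := by
        ext i
        simp
      rw [h10] at h9
      exact h9

end Pool.Agent.H57.AR
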