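import Pool.Agent.H57.AR.Targets
import Pool.Agent.H44.SO.Basic

/-!
# All reducts, all arities: the special blocks (row LTRW)
-/

set_option autoImplicit false
set_option linter.unusedVariables false

namespace Pool.Agent.H16.AR.LTRW

open Pool.Agent.H68.BP Pool.Agent.H58.SF Pool.Agent.H53.GC Pool.Agent.H53.NR
open Pool.Agent.H44.SO Pool.Agent.H57.SO
open Pool.Agent.H57.AR (CoreW T_JNEW T_LTRW)
open Pool.Agent.H57.EQ (Cx Tour)
open Pool.Agent.H44.EQ (PolMap TInv BinPol ZA JSet sel kap)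
open Function

/-- the letters of the patterns -/
def bl (r : Fin 3) (l : Fin 6) : Bool := pat r false true l

theorem pat_bl {X : Type} (r : Fin 3) (x y : X) (l : Fin 6) :
    pat r x y l = cond (bl r l) y x := by
  unfold bl
  fin_cases r <;> fin_cases l <;> rfl

theorem pf_LTRW (hJ : T_JNEW) : T_LTRW := by
  classical
  intro σ V S X _ P 𝔸 M c hs h hcore s J hJS hJ2 hJ3
  obtain ⟨v0, hv0⟩ := hs.col.surS s
  -- three free elements of type `s`
  obtain ⟨f, hf1, hft, hf2⟩ := Pool.Agent.H44.SO.pf_CFG σ V S X P 𝔸 M c hs (Fin 3) (Fin 3) id (fun _ => s)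
    (fun _ _ => P.fr s s) Function.injective_id (fun _ _ _ => (P.rv_fr s s).symm) (by
      intro K hK
      refine ⟨fun _ => v0, fun x hx => hv0, fun x hx y hy hne => ?_⟩
      exact absurd rfl (hK x hx y hy hne))
  have h01 : f 0 < f 1 := (hf1 0 1).2 (by decide)
  have h12 : f 1 < f 2 := (hf1 1 2).2 (by decide)
  have h02 : f 0 < f 2 := h01.trans h12
  have hk : ∀ r l, pat r (0 : ℕ) 7 l = cond (bl r l) 7 0 := fun r l => pat_bl r 0 7 l
  have hkeq : ∀ r l l', pat r (0 : ℕ) 7 l = pat r (0 : ℕ) 7 l' ↔ bl r l = bl r l' := by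
    intro r l l'
    rw [hk, hk]
    cases bl r l <;> cases bl r l' <;> simp
  have hklt : ∀ r l l', pat r (0 : ℕ) 7 l < pat r (0 : ℕ) 7 l' ↔
      bl r l = false ∧ bl r l' = true := by
    intro r l l'
    rw [hk, hk]
    cases bl r l <;> cases bl r l' <;> simp
  have hZ : ∀ r, ZS P c s (pat r (0 : ℕ) 7) (pat r (f 0) (f 2)) (pat r (f 1) (f 2)) := by
    intro r
    refine ⟨fun l => ?_, fun l l' hl => ?_, fun l l' hl => ?_, fun l l' hl => ?_⟩
    · simp only [pat_bl]
      cases bl r l <;> exact ⟨hft _, hft _⟩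
    · rw [hkeq] at hl
      simp only [pat_bl, hl, and_self]
    · obtain ⟨h1, h2⟩ := (hklt r l l').1 hl
      simp only [pat_bl, h1, h2, cond_true, cond_false]
      exact ⟨h02, h02, h12, h12⟩
    · simp only [pat_bl]
      obtain ⟨h1, h2⟩ := (hklt r l l').1 hl
      simp only [h1, h2, cond_true, cond_false]
      exact ⟨hf2 0 2 (by decide), hf2 0 2 (by decide), hf2 1 2 (by decide), hf2 1 2 (by decide)⟩
  have hb : ∀ r, ∃ b : Bool, ∀ l, l ∈ J r ↔ bl r l = b := by
    intro r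
    obtain ⟨l0, hl0⟩ := hJ σ V S X P 𝔸 M c hs h hcore s _ _ (hJS r)
    refine ⟨bl r l0, fun l => ⟨fun hl => ?_, fun hl => ?_⟩⟩
    · exact (hkeq r l l0).1 (hJ3 r l hl l0 hl0)
    · exact (hJ2 r l l0 ((hkeq r l l0).2 hl)).2 hl0
  choose b hb using hb
  have hfib : ∀ (r : Fin 3) (b : Bool), ∃ l, bl r l = b := by decide
  have hkey : ∀ r, (∃ s', h (pat r (f 0) (f 2)) (pat r (f 1) (f 2)) = Sum.inl s') ↔
      b r = true := by
    intro r
    rw [hJS r _ _ (hZ r)]
    constructor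
    · intro hall
      obtain ⟨l, hl⟩ := hfib r (b r)
      have h1 := hall l ((hb r l).2 hl)
      rw [pat_bl, pat_bl, hl] at h1
      cases hbr : b r
      · rw [hbr] at h1
        exact absurd h1 h01.ne
      · rfl
    · intro hbr l hl
      rw [hb, hbr] at hl
      rw [pat_bl, pat_bl, hl]
      rfl
  have hconst : ∀ r, b r = b 0 := by
    intro r
    have h1 := hkey r
    rw [hcore.exact r, hkey 0] at h1
    cases h2 : b r <;> cases h3 : b 0 <;> simp_all
  intro i₀
  have hdec : ∀ (b : Bool) (i : Fin 6), ∃ r, bl r i ≠ b := by decide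
  obtain ⟨r, hr⟩ := hdec (b 0) i₀
  refine ⟨r, ?_, fun l l' => ?_⟩
  · rw [hb, hconst]
    exact hr
  · rw [hb, hb, hconst, hkeq]
    cases bl r l <;> cases bl r l' <;> cases b 0 <;> simp

end Pool.Agent.H16.AR.LTRW
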