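import Pool.Agent.H44.AR.BasicA

/-!
# A maximal set of identified types, all arities
-/

set_option autoImplicit false

namespace Pool.Agent.H16.AR

open Pool.Agent.H68.BP Pool.Agent.H58.SF Pool.Agent.H53.GC Pool.Agent.H53.NR Pool.Agent.H53.GR
  Pool.Agent.H57.AR Pool.Agent.H44.AR
open Pool.Agent.H57.SO (Pal Col vt Sb FBl)
open Pool.Agent.H57.EQ (Cx)
open Classical

theorem pf_MAX : T_MAX := by
  intro σ ρ V _ 𝔸 𝔹
  have hfin : Finite (T1 ρ) := by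
    unfold T1
    infer_instance
  -- the possible sizes
  let P : ℕ → Prop := fun k => ∃ (m : (k : ℕ) → OT ρ (Fin k) → OT ρ (Fin k))
    (D : Set (T1 ρ)), UM 𝔹 𝔹 𝔸 𝔸 m ∧ Fix 𝔹 D m ∧ D.ncard = k
  have h0 : ∃ k, P k := by
    refine ⟨_, fun _ t => t, ∅, UM.refl, ⟨fun x => ?_, fun x hx => absurd hx (by simp)⟩, rfl⟩
    rfl
  have hb : ∀ k, P k → k ≤ Nat.card (T1 ρ) := by
    rintro k ⟨m, D, -, -, rfl⟩
    rw [← Set.ncard_univ]
    exact Set.ncard_le_ncard (Set.subset_univ _) (Set.toFinite _)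
  obtain ⟨k, hk⟩ := h0
  have h1 : P (Nat.findGreatest P (Nat.card (T1 ρ))) := Nat.findGreatest_spec (hb k hk) hk
  have h2 : ∀ l, P l → l ≤ Nat.findGreatest P (Nat.card (T1 ρ)) := fun l hl =>
    Nat.le_findGreatest (hb l hl) hl
  obtain ⟨m, D, hm, hF, hc⟩ := h1
  refine ⟨m, D, hm, hF, fun m' hm' hF' x hx => ?_⟩
  by_contra hD
  have hF2 : Fix 𝔹 (insert (ty 𝔹 x) D) m' := by
    refine ⟨hF'.typ, fun y hy => ?_⟩
    rcases Set.mem_insert_iff.1 hy with h | h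
    · rw [h]
      exact hx
    · exact hF'.clp y h
  have h3 := h2 _ ⟨m', _, hm', hF2, rfl⟩
  rw [← hc, Set.ncard_insert_of_notMem hD (Set.toFinite _)] at h3
  omega

end Pool.Agent.H16.AR
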